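import Pool.Agent.MP_74e98a_nt.H93.Defs
import Pool.Agent.MP_6f2ed2_nt.H1.Zeta

/-! The approximate functional equation with a smooth step and a free shift. -/

namespace Pool.Agent.MP_74e98a_nt.H15

open Complex MeasureTheory Pool.Agent.MP_6f2ed2_nt.H1 Pool.Agent.MP_74e98a_nt.H75
  Pool.Agent.MP_74e98a_nt.H93

variable {φ : ℝ → ℝ} {G : ℂ → ℂ}

theorem zz_re (y : ℝ) : (zz y).re = 3 / 2 := by
  simp [zz]

theorem one_le_norm_zz (y : ℝ) : 1 ≤ ‖zz y‖ := by
  have h := re_le_norm (zz y)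
  rw [zz_re] at h
  linarith

theorem zz_ne (y : ℝ) : zz y ≠ 0 := norm_pos_iff.1 (one_pos.trans_le (one_le_norm_zz y))

theorem continuous_zz : Continuous zz := by unfold zz; fun_prop

theorem conj_zz (y : ℝ) : (starRingEnd ℂ) (zz (-y)) = zz y := by
  simp [zz, map_ofNat]

theorem dec (h : Kern φ G) (k : ℕ) :
    ∃ C : ℝ, 0 ≤ C ∧ ∀ y : ℝ, ‖G (zz y)‖ * (1 + |y|) ^ k ≤ C * (1 + y ^ 2)⁻¹ := by
  obtain ⟨C, hC⟩ := h.decay (k + 2)
  refine ⟨C, le_trans (by positivity) (hC 0), fun y => ?_⟩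
  rw [← div_eq_mul_inv, le_div_iff₀ (by positivity)]
  refine le_trans ?_ (hC y)
  rw [pow_add, ← mul_assoc]
  refine mul_le_mul_of_nonneg_left ?_ (by positivity)
  nlinarith [abs_nonneg y, sq_abs y]

/-- the basic kernel on the line -/
noncomputable def hk (G : ℂ → ℂ) (l y : ℝ) : ℂ := G (zz y) * cexp (zz y * l) / zz y

theorem continuous_hk (h : Kern φ G) (l : ℝ) : Continuous (hk G l) := by
  unfold hk
  refine Continuous.div ((h.diff.continuous.comp continuous_zz).mul ?_) continuous_zz zz_ne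
  exact continuous_exp.comp (continuous_zz.mul continuous_const)

theorem norm_exp_zz (l y : ℝ) : ‖cexp (zz y * l)‖ = Real.exp (3 / 2 * l) := by
  rw [norm_exp, re_mul_ofReal, zz_re]

theorem norm_hk (l y : ℝ) : ‖hk G l y‖ = Real.exp (3 / 2 * l) * (‖G (zz y)‖ / ‖zz y‖) := by
  rw [hk, norm_div, norm_mul, norm_exp_zz]
  ring

theorem norm_hk_le (l y : ℝ) : ‖hk G l y‖ ≤ Real.exp (3 / 2 * l) * ‖G (zz y)‖ := by
  rw [norm_hk]
  exact mul_le_mul_of_nonneg_left (div_le_self (norm_nonneg _) (one_le_norm_zz y))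
    (Real.exp_pos _).le

theorem integrable_hk (h : Kern φ G) (l : ℝ) : Integrable (hk G l) := by
  obtain ⟨C, -, hC⟩ := dec h 0
  refine ((integrable_inv_one_add_sq.const_mul C).const_mul (Real.exp (3 / 2 * l))).mono'
    (continuous_hk h l).aestronglyMeasurable (Filter.Eventually.of_forall fun y => ?_)
  refine (norm_hk_le l y).trans (mul_le_mul_of_nonneg_left ?_ (Real.exp_pos _).le)
  simpa using hC y

theorem norm_zeta_le : ∃ Z : ℝ, 0 ≤ Z ∧ ∀ w : ℂ, w.re = 2 → ‖riemannZeta w‖ ≤ Z := by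
  have hs : Summable fun n : ℕ => 1 / (n : ℝ) ^ 2 := Real.summable_one_div_nat_pow.2 one_lt_two
  refine ⟨∑' n : ℕ, 1 / (n : ℝ) ^ 2, tsum_nonneg fun n => by positivity, fun w hw => ?_⟩
  rw [zeta_eq_tsum_one_div_nat_cpow (by rw [hw]; norm_num)]
  refine tsum_of_norm_bounded hs.hasSum fun n => ?_
  rw [norm_div, norm_one, norm_natCast_cpow_of_re_ne_zero n (by rw [hw]; norm_num), hw]
  norm_num

theorem s_add_re (t y : ℝ) : (1 / 2 + I * t + zz y).re = 2 := by
  simp [zz]
  norm_num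

theorem term_eq (t l y : ℝ) (n : ℕ) :
    1 / (n : ℂ) ^ (1 / 2 + I * t + zz y) * hk G l y = dir n t * hk G (l - Real.log n) y := by
  rcases Nat.eq_zero_or_pos n with rfl | hn
  · have h0 : (1 / 2 + I * t + zz y : ℂ) ≠ 0 := by
      intro e
      have := s_add_re t y
      rw [e] at this
      simp at this
    simp only [Nat.cast_zero, zero_cpow h0, dir]
    simp
  · have hn' : (0 : ℝ) < n := by exact_mod_cast hn
    have e1 : (1 / Real.sqrt n : ℝ) = Real.exp (-(Real.log n / 2)) := by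
      rw [Real.exp_neg, Real.exp_half, Real.exp_log hn', one_div]
    have e2 : 1 / (n : ℂ) ^ (1 / 2 + I * t + zz y) =
        cexp (-((Real.log n : ℂ) * (1 / 2 + I * t + zz y))) := by
      rw [cpow_def_of_ne_zero (by exact_mod_cast hn.ne'), exp_neg, one_div, natCast_log]
    have e3 : cexp (-((Real.log n : ℂ) * (1 / 2 + I * t + zz y))) * cexp (zz y * l) =
        cexp (((-(Real.log n / 2) : ℝ) : ℂ)) * cexp (-I * (Real.log n : ℂ) * t) *
          cexp (zz y * ((l - Real.log n : ℝ) : ℂ)) := by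
      rw [← exp_add, ← exp_add, ← exp_add]
      congr 1
      simp only [ofReal_neg, ofReal_div, ofReal_sub, ofReal_ofNat]
      ring
    rw [e2, dir, e1, ofReal_exp, hk, hk]
    linear_combination (G (zz y) / zz y) * e3

theorem integral_series (h : Kern φ G) (t l : ℝ) (N : ℕ) (hN : l + 1 ≤ Real.log N) :
    ∫ y : ℝ, riemannZeta (1 / 2 + I * t + zz y) * hk G l y = 2 * Real.pi * P φ l N t := by
  have hs : Summable fun n : ℕ => 1 / (n : ℝ) ^ 2 := Real.summable_one_div_nat_pow.2 one_lt_two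
  have h1 := hasSum_integral_of_summable_integral_norm (μ := (volume : Measure ℝ))
    (F := fun (n : ℕ) (y : ℝ) => dir n t * hk G (l - Real.log n) y)
    (fun n => (integrable_hk h _).const_mul _) (by
      refine (hs.mul_right (∫ y : ℝ, ‖hk G l y‖)).congr fun n => ?_
      rw [← integral_const_mul]
      refine integral_congr_ae (Filter.Eventually.of_forall fun y => ?_)
      simp only
      rw [← term_eq, norm_mul, norm_div, norm_one,
        norm_natCast_cpow_of_re_ne_zero n (by rw [s_add_re]; norm_num), s_add_re]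
      norm_num)
  have h2 : ∀ y : ℝ, ∑' n : ℕ, dir n t * hk G (l - Real.log n) y =
      riemannZeta (1 / 2 + I * t + zz y) * hk G l y := by
    intro y
    rw [zeta_eq_tsum_one_div_nat_cpow (by rw [s_add_re]; norm_num), ← tsum_mul_right]
    exact tsum_congr fun n => (term_eq t l y n).symm
  simp only [h2] at h1
  have h3 : ∀ n : ℕ, ∫ y : ℝ, dir n t * hk G (l - Real.log n) y =
      2 * Real.pi * ((φ (l - Real.log n) : ℂ) * dir n t) := by
    intro n
    rw [integral_const_mul]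
    unfold hk
    rw [h.inv]
    ring
  simp only [h3] at h1
  rw [P, Finset.mul_sum]
  refine h1.unique (hasSum_sum_of_ne_finset_zero fun n hn => ?_)
  rcases Nat.eq_zero_or_pos n with rfl | hn0
  · simp [dir]
  · have hNn : N ≤ n := by
      rw [Finset.mem_Icc, not_and, not_le] at hn
      exact (hn hn0).le
    have h4 : Real.log N ≤ Real.log n := by
      rcases Nat.eq_zero_or_pos N with rfl | hN0
      · simpa using Real.log_natCast_nonneg n
      · exact Real.log_le_log (by exact_mod_cast hN0) (by exact_mod_cast hNn)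
    rw [h.step.zero _ (by linarith)]
    simp

theorem continuous_zeta_line (t : ℝ) :
    Continuous fun y : ℝ => riemannZeta (1 / 2 + I * t + zz y) := by
  refine continuous_iff_continuousAt.2 fun y => ?_
  have h1 : (1 / 2 + I * t + zz y : ℂ) ≠ 1 := by
    intro e
    have := s_add_re t y
    rw [e] at this
    simp at this
  exact ContinuousAt.comp (f := fun y : ℝ => (1 / 2 + I * t + zz y : ℂ))
    (differentiableAt_riemannZeta h1).continuousAt
    (continuous_const.add continuous_zz).continuousAt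

theorem integrable_series (h : Kern φ G) (t l : ℝ) :
    Integrable fun y : ℝ => riemannZeta (1 / 2 + I * t + zz y) * hk G l y := by
  obtain ⟨Z, -, hZ⟩ := norm_zeta_le
  exact (integrable_hk h l).bdd_mul (continuous_zeta_line t).aestronglyMeasurable
    (Filter.Eventually.of_forall fun y => hZ _ (s_add_re t y))

/-- the exponential factor -/
noncomputable def kk (L : ℝ) (z : ℂ) : ℂ := cexp (-(I * Real.pi * z / 4) - L * z)

/-- one half of the integrand -/
noncomputable def ff (G : ℂ → ℂ) (t L y : ℝ) : ℂ :=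
  xi (1 / 2 + I * t + zz y) * kk L (zz y) * G (zz y) / zz y

/-- the normalised half of the integrand -/
noncomputable def gg (G : ℂ → ℂ) (t L y : ℝ) : ℂ :=
  riemannZeta (1 / 2 + I * t + zz y) * H93.Rat t (zz y) * hk G (-L) y

/-- the normalising constant -/
noncomputable def cc (t : ℝ) : ℂ := (1 / 2 + I * t) * (1 - (1 / 2 + I * t)) * Gammaℝ (1 / 2 + I * t)

theorem s_mul (t : ℝ) : (1 / 2 + I * t) * (1 - (1 / 2 + I * t)) = ((1 / 4 + t ^ 2 : ℝ) : ℂ) := by
  push_cast
  linear_combination (-(t : ℂ) ^ 2) * I_mul_I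

theorem s_mul_ne (t : ℝ) : (1 / 2 + I * t) * (1 - (1 / 2 + I * t)) ≠ (0 : ℂ) := by
  rw [s_mul]
  exact ofReal_ne_zero.2 (by positivity)

theorem gam_ne (t : ℝ) : Gammaℝ (1 / 2 + I * t) ≠ 0 :=
  Gammaℝ_ne_zero_of_re_pos (by simp)

theorem cc_eq (t : ℝ) : ∃ r : ℝ, 0 < r ∧ cc t = r * hardyPhase t := by
  have hpi : (Real.pi : ℂ) ≠ 0 := ofReal_ne_zero.mpr Real.pi_ne_zero
  have hg : ‖Gamma (1 / 4 + I * t / 2)‖ ≠ 0 := norm_ne_zero_iff.mpr (a_Gamma_ne t)
  refine ⟨(1 / 4 + t ^ 2) * (Real.pi ^ (-(1 / 4) : ℝ) * ‖Gamma (1 / 4 + I * t / 2)‖),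
    by have := Real.pi_pos; positivity, ?_⟩
  have e1 : (1 / 2 + I * t : ℂ) / 2 = 1 / 4 + I * t / 2 := by ring
  have e2 : (Real.pi : ℂ) ^ (-(1 / 2 + I * t : ℂ) / 2) =
      (Real.pi : ℂ) ^ ((-(1 / 4) : ℝ) : ℂ) * (Real.pi : ℂ) ^ (-(I * t / 2)) := by
    rw [← cpow_add _ _ hpi]
    congr 1
    push_cast; ring
  have hg' : ((‖Gamma (1 / 4 + I * t / 2)‖ : ℝ) : ℂ) ≠ 0 := ofReal_ne_zero.2 hg
  rw [cc, s_mul, Gammaℝ_def, e1, e2, hardyPhase, ofReal_mul, ofReal_mul,
    ofReal_cpow Real.pi_pos.le]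
  generalize ((‖Gamma (1 / 4 + I * t / 2)‖ : ℝ) : ℂ) = a at hg' ⊢
  generalize Gamma (1 / 4 + I * t / 2) = b
  field_simp

theorem ff_eq (hX : XiStmt) (t L y : ℝ) : ff G t L y = cc t * gg G t L y := by
  have h1 : (1 / 2 + I * t + zz y : ℂ) ≠ 1 := by
    intro e
    have := s_add_re t y
    rw [e] at this
    simp at this
  have e : kk L (zz y) = cexp (-(I * Real.pi * zz y / 4)) * cexp (zz y * ((-L : ℝ) : ℂ)) := by
    rw [kk, ← exp_add]
    congr 1
    push_cast
    ring
  have h2 := s_mul_ne t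
  have h3 := gam_ne t
  rw [ff, hX.2.2.2.1 _ (by rw [s_add_re]; norm_num) h1, e, cc, gg, H93.Rat, hk]
  generalize (1 / 2 + I * t) * (1 - (1 / 2 + I * t)) = a at h2 ⊢
  generalize Gammaℝ (1 / 2 + I * t) = b at h3 ⊢
  generalize (1 / 2 + I * t + zz y : ℂ) = w
  field_simp

theorem continuous_ff (hX : XiStmt) (h : Kern φ G) (t L : ℝ) : Continuous (ff G t L) := by
  unfold ff kk
  refine Continuous.div (((hX.1.continuous.comp (continuous_const.add continuous_zz)).mul ?_).mul
    (h.diff.continuous.comp continuous_zz)) continuous_zz zz_ne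
  have := continuous_zz
  fun_prop

theorem continuous_gg (hX : XiStmt) (h : Kern φ G) (t L : ℝ) : Continuous (gg G t L) := by
  have hc : cc t ≠ 0 := mul_ne_zero (s_mul_ne t) (gam_ne t)
  have e : gg G t L = fun y => (cc t)⁻¹ * ff G t L y := by
    funext y
    rw [ff_eq hX, inv_mul_cancel_left₀ hc]
  rw [e]
  exact continuous_const.mul (continuous_ff hX h t L)

theorem gg_approx (hX : XiStmt) (hG : GamStmt) (h : Kern φ G) :
    ∃ C t0 : ℝ, ∀ (t L : ℝ) (N : ℕ), t0 ≤ t → |L| ≤ 4 → ell t + 5 ≤ Real.log N →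
      Integrable (gg G t L) ∧
        ‖(∫ y, gg G t L y) - 2 * Real.pi * P φ (ell t - L) N t‖ ≤
          Real.pi * (C * t ^ (-(1 / 4 : ℝ))) := by
  obtain ⟨C, t0, k, hC⟩ := hG
  obtain ⟨Z, hZ0, hZ⟩ := norm_zeta_le
  obtain ⟨D, hD0, hD⟩ := dec h k
  refine ⟨Z * C * Real.exp 6 * D, t0, fun t L N ht hL hN => ?_⟩
  have hL' := abs_le.1 hL
  have hb : ∀ y : ℝ, ‖gg G t L y - riemannZeta (1 / 2 + I * t + zz y) * hk G (ell t - L) y‖ ≤
      Z * C * Real.exp 6 * D * t ^ (-(1 / 4 : ℝ)) * (1 + y ^ 2)⁻¹ := by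
    intro y
    have e : hk G (ell t - L) y = cexp (zz y * ell t) * hk G (-L) y := by
      have e1 : cexp (zz y * ((ell t - L : ℝ) : ℂ)) =
          cexp (zz y * ell t) * cexp (zz y * ((-L : ℝ) : ℂ)) := by
        rw [← exp_add]
        congr 1
        push_cast
        ring
      rw [hk, hk, e1]
      ring
    have e2 : gg G t L y - riemannZeta (1 / 2 + I * t + zz y) * hk G (ell t - L) y =
        riemannZeta (1 / 2 + I * t + zz y) * ((H93.Rat t (zz y) - cexp (zz y * ell t)) *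
          hk G (-L) y) := by
      rw [e, gg]
      ring
    have h1 := hC t y ht
    have h0 : 0 ≤ C * t ^ (-(1 / 4 : ℝ)) := by
      have h2 := (norm_nonneg _).trans (hC t 0 ht)
      simpa using h2
    have h2 : ‖hk G (-L) y‖ ≤ Real.exp 6 * ‖G (zz y)‖ :=
      (norm_hk_le _ y).trans (mul_le_mul_of_nonneg_right (Real.exp_le_exp.2 (by linarith))
        (norm_nonneg _))
    rw [e2, norm_mul, norm_mul]
    calc _ ≤ Z * (C * t ^ (-(1 / 4 : ℝ)) * (1 + |y|) ^ k * (Real.exp 6 * ‖G (zz y)‖)) := by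
          gcongr
          exact hZ _ (s_add_re t y)
      _ = Z * (C * t ^ (-(1 / 4 : ℝ))) * Real.exp 6 * (‖G (zz y)‖ * (1 + |y|) ^ k) := by ring
      _ ≤ Z * (C * t ^ (-(1 / 4 : ℝ))) * Real.exp 6 * (D * (1 + y ^ 2)⁻¹) :=
          mul_le_mul_of_nonneg_left (hD y) (by positivity)
      _ = _ := by ring
  have hi0 := integrable_series h t (ell t - L)
  have hi1 : Integrable fun y : ℝ =>
      gg G t L y - riemannZeta (1 / 2 + I * t + zz y) * hk G (ell t - L) y :=
    (integrable_inv_one_add_sq.const_mul _).mono'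
      ((continuous_gg hX h t L).aestronglyMeasurable.sub hi0.aestronglyMeasurable)
      (Filter.Eventually.of_forall hb)
  have hi : Integrable (gg G t L) := by
    refine (hi1.add hi0).congr (Filter.Eventually.of_forall fun y => ?_)
    simp
  refine ⟨hi, ?_⟩
  rw [← integral_series h t (ell t - L) N (by linarith), ← integral_sub hi hi0]
  refine (norm_integral_le_of_norm_le (integrable_inv_one_add_sq.const_mul _)
    (Filter.Eventually.of_forall hb)).trans_eq ?_
  rw [integral_const_mul, integral_univ_inv_one_add_sq]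
  ring

/-- the even entire function -/
noncomputable def AA (G : ℂ → ℂ) (t L : ℝ) (z : ℂ) : ℂ :=
  (xi (1 / 2 + I * t + z) * kk L z + xi (1 - (1 / 2 + I * t) + z) * kk L (-z)) * G z

theorem AA_line (hX : XiStmt) (h : Kern φ G) (t L y : ℝ) :
    AA G t L (zz y) / zz y = ff G t L y + (starRingEnd ℂ) (ff G t (-L) (-y)) := by
  have e1 : (starRingEnd ℂ) (1 / 2 + I * t + zz (-y)) = 1 - (1 / 2 + I * t) + zz y := by
    rw [map_add, conj_zz]
    congr 1
    apply Complex.ext <;> simp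
    norm_num
  have e2 : (starRingEnd ℂ) (kk (-L) (zz (-y))) = kk L (-zz y) := by
    rw [kk, kk, ← exp_conj]
    congr 1
    simp only [map_sub, map_neg, map_div₀, map_mul, conj_I, conj_ofReal, conj_zz, map_ofNat]
    push_cast
    ring
  rw [ff, ff, map_div₀, map_mul, map_mul, ← hX.2.2.1, ← h.conj, e1, e2, conj_zz, AA]
  ring

theorem norm_kk_le (L : ℝ) {z : ℂ} (h1 : |z.re| ≤ 3 / 2) :
    ‖kk L z‖ ≤ Real.exp (|L| * (3 / 2)) * Real.exp |z.im| := by
  rw [kk, norm_exp, ← Real.exp_add, Real.exp_le_exp]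
  have e : (-(I * Real.pi * z / 4) - L * z).re = Real.pi / 4 * z.im - L * z.re := by
    simp
    ring
  rw [e]
  have h2 : |L * z.re| ≤ |L| * (3 / 2) := by
    rw [abs_mul]
    exact mul_le_mul_of_nonneg_left h1 (abs_nonneg _)
  have h3 : Real.pi / 4 * z.im ≤ |z.im| := by
    have := Real.pi_le_four
    have := Real.pi_pos
    nlinarith [le_abs_self z.im, abs_nonneg z.im]
  linarith [neg_abs_le (L * z.re)]

theorem xi_growth (hX : XiStmt) (s : ℂ) (hs : s.re = 1 / 2) :
    ∃ C : ℝ, 0 ≤ C ∧ ∀ z : ℂ, 0 ≤ z.re → z.re ≤ 3 / 2 →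
      ‖xi (s + z)‖ ≤ C * Real.exp (3 * |z.im|) := by
  obtain ⟨C, hC⟩ := hX.2.2.2.2
  refine ⟨|C| * (3 + ‖s‖) ^ 3, by positivity, fun z h0 h1 => ?_⟩
  have h2 := hC (s + z) (by rw [add_re, hs]; linarith) (by rw [add_re, hs]; linarith)
  have h3 : 1 + ‖s + z‖ ≤ (3 + ‖s‖) * Real.exp |z.im| := by
    have h4 := norm_add_le s z
    have h5 := norm_le_abs_re_add_abs_im z
    rw [abs_of_nonneg h0] at h5
    have h6 := Real.add_one_le_exp |z.im|
    nlinarith [norm_nonneg s, abs_nonneg z.im]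
  calc _ ≤ |C| * (1 + ‖s + z‖) ^ 3 :=
        h2.trans (mul_le_mul_of_nonneg_right (le_abs_self C) (by positivity))
    _ ≤ |C| * ((3 + ‖s‖) * Real.exp |z.im|) ^ 3 := by gcongr
    _ = _ := by
        rw [mul_pow, ← Real.exp_nat_mul]
        push_cast
        ring

theorem AA_growth (hX : XiStmt) (h : Kern φ G) (t L : ℝ) :
    ∃ C : ℝ, ∀ z : ℂ, 0 ≤ z.re → z.re ≤ 3 / 2 → ‖AA G t L z‖ ≤ C * Real.exp (C * |z.im|) := by
  obtain ⟨C1, h10, h1⟩ := xi_growth hX (1 / 2 + I * t) (by simp)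
  obtain ⟨C2, h20, h2⟩ := xi_growth hX (1 - (1 / 2 + I * t)) (by simp; norm_num)
  refine ⟨(C1 + C2) * Real.exp (|L| * (3 / 2)) * Real.exp (3 / 2) + 4, fun z hz0 hz1 => ?_⟩
  have hz : |z.re| ≤ 3 / 2 := by rwa [abs_of_nonneg hz0]
  have k1 := norm_kk_le L hz
  have k2 := norm_kk_le L (z := -z) (by rwa [neg_re, abs_neg])
  rw [neg_im, abs_neg] at k2
  have k3 : ‖G z‖ ≤ Real.exp (3 / 2) := (h.bound z).trans (Real.exp_le_exp.2 hz)
  have k4 : 0 ≤ (C1 + C2) * Real.exp (|L| * (3 / 2)) * Real.exp (3 / 2) := by positivity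
  have k5 : Real.exp (3 * |z.im|) * Real.exp |z.im| = Real.exp (4 * |z.im|) := by
    rw [← Real.exp_add]
    congr 1
    ring
  rw [AA, norm_mul]
  calc _ ≤ (C1 * Real.exp (3 * |z.im|) * (Real.exp (|L| * (3 / 2)) * Real.exp |z.im|) +
          C2 * Real.exp (3 * |z.im|) * (Real.exp (|L| * (3 / 2)) * Real.exp |z.im|)) *
          Real.exp (3 / 2) := by
        gcongr
        refine (norm_add_le _ _).trans ?_
        rw [norm_mul, norm_mul]
        gcongr
        · exact h1 z hz0 hz1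
        · exact h2 z hz0 hz1
    _ = (C1 + C2) * Real.exp (|L| * (3 / 2)) * Real.exp (3 / 2) * Real.exp (4 * |z.im|) := by
        rw [← k5]
        ring
    _ ≤ _ := by
        gcongr
        · linarith
        · linarith

theorem exact_formula (hX : XiStmt) (hC : ContourStmt) (h : Kern φ G) (t L : ℝ)
    (h1 : Integrable (gg G t L)) (h2 : Integrable (gg G t (-L))) :
    2 * Real.pi * (hardyZ t : ℂ) = hardyPhase t * (∫ y, gg G t L y) +
      (starRingEnd ℂ) (hardyPhase t * ∫ y, gg G t (-L) y) := by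
  have e1 : ∀ L' : ℝ, ff G t L' = fun y => cc t * gg G t L' y := fun L' =>
    funext fun y => ff_eq hX t L' y
  have i1 : Integrable (ff G t L) := by rw [e1]; exact h1.const_mul _
  have i2 : Integrable (ff G t (-L)) := by rw [e1]; exact h2.const_mul _
  have i3 : Integrable fun y : ℝ => (starRingEnd ℂ) (ff G t (-L) (-y)) :=
    (conjCLE.integrable_comp_iff (φ := fun y : ℝ => ff G t (-L) (-y))).2 i2.comp_neg
  have hd : Differentiable ℂ (AA G t L) := by
    have := hX.1
    have := h.diff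
    unfold AA kk
    fun_prop
  have hev : ∀ z, AA G t L (-z) = AA G t L z := by
    intro z
    have a1 : xi (1 / 2 + I * t + -z) = xi (1 - (1 / 2 + I * t) + z) := by
      rw [← hX.2.1]
      congr 1
      ring
    have a2 : xi (1 - (1 / 2 + I * t) + -z) = xi (1 / 2 + I * t + z) := by
      rw [← hX.2.1]
      congr 1
      ring
    rw [AA, AA, a1, a2, h.even, neg_neg]
    ring
  have hc := hC (AA G t L) hd hev (AA_growth hX h t L) (by
    simp only [AA_line hX h]
    exact i1.add i3)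
  simp only [AA_line hX h] at hc
  rw [integral_add i1 i3, integral_conj, integral_neg_eq_self (ff G t (-L)), e1, e1,
    integral_const_mul, integral_const_mul] at hc
  have hs1 : (1 / 2 + I * t : ℂ) ≠ 1 := by
    intro e
    have := congrArg re e
    simp at this
  have h0 : AA G t L 0 = 2 * (cc t * riemannZeta (1 / 2 + I * t)) := by
    rw [AA, add_zero, add_zero, hX.2.1, h.zero, hX.2.2.2.1 _ (by simp) hs1, cc]
    simp [kk]
    ring
  have hZ : (hardyZ t : ℂ) = hardyPhase t * riemannZeta (1 / 2 + I * t) := by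
    apply Complex.ext
    · simp [hardyZ]
    · rw [phase_zeta_im]; simp
  obtain ⟨r, hr, hr'⟩ := cc_eq t
  rw [h0, hr', mul_assoc (r : ℂ), mul_assoc (r : ℂ), map_mul, conj_ofReal] at hc
  have hr0 : (r : ℂ) ≠ 0 := ofReal_ne_zero.2 hr.ne'
  refine mul_left_cancel₀ hr0 ?_
  rw [hZ]
  linear_combination -hc

/-- the approximate functional equation -/
theorem afe (hX : XiStmt) (hC : ContourStmt) (hG : GamStmt) {φ : ℝ → ℝ} {G : ℂ → ℂ}
    (h : Kern φ G) : AfeStmt φ := by
  obtain ⟨C, t0, hA⟩ := gg_approx hX hG h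
  refine ⟨C, t0, fun t L N ht hL hN => ?_⟩
  obtain ⟨i1, b1⟩ := hA t L N ht hL hN
  obtain ⟨i2, b2⟩ := hA t (-L) N ht (by rwa [abs_neg]) hN
  rw [sub_neg_eq_add] at b2
  have e := exact_formula hX hC h t L i1 i2
  have hpi := Real.pi_pos
  have e2 : 2 * (Real.pi : ℂ) * ((hardyZ t : ℂ) - (hardyPhase t * P φ (ell t - L) N t +
      (starRingEnd ℂ) (hardyPhase t * P φ (ell t + L) N t))) =
      hardyPhase t * ((∫ y, gg G t L y) - 2 * Real.pi * P φ (ell t - L) N t) +
        (starRingEnd ℂ) (hardyPhase t *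
          ((∫ y, gg G t (-L) y) - 2 * Real.pi * P φ (ell t + L) N t)) := by
    simp only [map_mul, map_sub, conj_ofReal, map_ofNat] at e ⊢
    linear_combination e
  have h3 := norm_add_le
    (hardyPhase t * ((∫ y, gg G t L y) - 2 * Real.pi * P φ (ell t - L) N t))
    ((starRingEnd ℂ) (hardyPhase t * ((∫ y, gg G t (-L) y) - 2 * Real.pi * P φ (ell t + L) N t)))
  rw [← e2, norm_conj, norm_mul, norm_mul, norm_mul, norm_mul, norm_hardyPhase, one_mul, one_mul,
    norm_real, Real.norm_of_nonneg hpi.le, Complex.norm_ofNat] at h3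
  refine le_of_mul_le_mul_left ?_ (show 0 < 2 * Real.pi by positivity)
  linarith

end Pool.Agent.MP_74e98a_nt.H15
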